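import Mathlib.Analysis.InnerProductSpace.PiL2
import Mathlib.LinearAlgebra.Complex.FiniteDimensional
import Mathlib.Analysis.Calculus.FDeriv.Add
import Mathlib.Analysis.CStarAlgebra.Classes
import Mathlib.Order.CompletePartialOrder

set_option autoImplicit false

open Filter Topology
open scoped ENNReal

namespace Pool.Agent.MP_26d9d0_an

section Generic

variable {V : Type} [AddCommGroup V]

/-- The norm topology of the step `{u | p u < ∞}` of an extended norm `p`: a set is open iff it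
contains a `p`-ball around each of its points. -/
@[reducible] def stepTop (p : V → ℝ≥0∞) : TopologicalSpace {u : V // p u < ⊤} where
  IsOpen s := ∀ u ∈ s, ∃ ε > 0, ∀ v : {u : V // p u < ⊤}, p (v.1 - u.1) < ε → v ∈ s
  isOpen_univ := fun _ _ => ⟨1, one_pos, fun _ _ => trivial⟩
  isOpen_inter := by
    intro s t hs ht u hu
    obtain ⟨ε, hε, h⟩ := hs u hu.1
    obtain ⟨ε', hε', h'⟩ := ht u hu.2
    exact ⟨min ε ε', lt_min hε hε', fun v hv =>
      ⟨h v (hv.trans_le (min_le_left _ _)), h' v (hv.trans_le (min_le_right _ _))⟩⟩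
  isOpen_sUnion := by
    rintro S hS u ⟨s, hs, hu⟩
    obtain ⟨ε, hε, h⟩ := hS s hs u hu
    exact ⟨ε, hε, fun v hv => ⟨s, hs, h v hv⟩⟩

/-- The locally convex inductive limit topology of the normed steps `E_N = {u | p N u < ∞}`: the
finest locally convex vector space topology on `V` making every inclusion `E_N → V` continuous. -/
@[reducible] def limTop [Module ℂ V] (p : ℕ → V → ℝ≥0∞) : TopologicalSpace V :=
  sInf {t | @IsTopologicalAddGroup V t _ ∧ @ContinuousSMul ℂ V _ _ t ∧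
    @LocallyConvexSpace ℝ V _ _ _ _ t ∧
    ∀ N, @Continuous _ _ (stepTop (p N)) t Subtype.val}

/-- The bornological limits of sequences in `A`: `p N (u_k - f) → 0` for some fixed `N`. -/
def bornLim (p : ℕ → V → ℝ≥0∞) (A : Set V) : Set V :=
  {f | ∃ (N : ℕ) (u : ℕ → V), (∀ k, u k ∈ A) ∧
    Tendsto (fun k => p N (u k - f)) atTop (𝓝 0)}

end Generic

/-- The space `ℂ^n` with its Euclidean norm. -/
abbrev Cn (n : ℕ) : Type := EuclideanSpace ℂ (Fin n)

/-- A weight: a continuous function `δ : ℂ^n → [0, ∞)` tending to `0` as `|z| → ∞`. -/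
structure Weight (n : ℕ) where
  toFun : Cn n → ℝ
  continuous_toFun : Continuous toFun
  nonneg : ∀ z, 0 ≤ toFun z
  tendsto_zero : Tendsto toFun (Bornology.cobounded (Cn n)) (𝓝 0)

variable {n : ℕ}

/-- The open set `S_δ = {z | δ z > 0}`. -/
def Weight.S (δ : Weight n) : Set (Cn n) := {z | 0 < δ.toFun z}

/-- `u : S_δ → ℂ` is holomorphic. -/
def IsHol (δ : Weight n) (u : δ.S → ℂ) : Prop :=
  ∃ U : Cn n → ℂ, DifferentiableOn ℂ U δ.S ∧ ∀ z : δ.S, u z = U z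

/-- `‖u‖_N = sup_{S_δ} δ^N |u|`, with values in `[0, ∞]`. -/
noncomputable def wnorm (δ : Weight n) (N : ℕ) (u : δ.S → ℂ) : ℝ≥0∞ :=
  ⨆ z : δ.S, ENNReal.ofReal (δ.toFun z ^ N * ‖u z‖)

lemma wnorm_lt_top_iff (δ : Weight n) (N : ℕ) (u : δ.S → ℂ) :
    wnorm δ N u < ⊤ ↔ ∃ C : ℝ, ∀ z : δ.S, δ.toFun z ^ N * ‖u z‖ ≤ C := by
  constructor
  · intro h
    refine ⟨(wnorm δ N u).toReal, fun z => ?_⟩
    exact (ENNReal.ofReal_le_iff_le_toReal h.ne).1
      (le_iSup (fun z : δ.S => ENNReal.ofReal (δ.toFun z ^ N * ‖u z‖)) z)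
  · rintro ⟨C, hC⟩
    exact lt_of_le_of_lt (iSup_le fun z => ENNReal.ofReal_le_ofReal (hC z)) ENNReal.ofReal_lt_top

/-- The space `E_N(δ)` of holomorphic `u` on `S_δ` with `‖u‖_N < ∞`. -/
def E (δ : Weight n) (N : ℕ) : Submodule ℂ (δ.S → ℂ) where
  carrier := {u | IsHol δ u ∧ wnorm δ N u < ⊤}
  add_mem' := by
    rintro u v ⟨⟨U, hU, hu⟩, hu'⟩ ⟨⟨V, hV, hv⟩, hv'⟩
    refine ⟨⟨U + V, hU.add hV, fun z => by simp [hu, hv]⟩, ?_⟩
    rw [wnorm_lt_top_iff] at *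
    obtain ⟨C, hC⟩ := hu'
    obtain ⟨D, hD⟩ := hv'
    refine ⟨C + D, fun z => ?_⟩
    have h0 : 0 ≤ δ.toFun z ^ N := pow_nonneg (δ.nonneg z) N
    have h1 := mul_le_mul_of_nonneg_left (norm_add_le (u z) (v z)) h0
    have h2 := hC z
    have h3 := hD z
    simp only [Pi.add_apply]
    linarith
  zero_mem' := by
    refine ⟨⟨0, differentiableOn_const 0, fun z => rfl⟩, ?_⟩
    rw [wnorm_lt_top_iff]
    exact ⟨0, fun z => by simp⟩
  smul_mem' := by
    rintro c u ⟨⟨U, hU, hu⟩, hu'⟩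
    refine ⟨⟨c • U, hU.const_smul c, fun z => by simp [hu]⟩, ?_⟩
    rw [wnorm_lt_top_iff] at *
    obtain ⟨C, hC⟩ := hu'
    refine ⟨‖c‖ * C, fun z => ?_⟩
    have h1 := mul_le_mul_of_nonneg_left (hC z) (norm_nonneg c)
    simp only [Pi.smul_apply, norm_smul]
    linarith

lemma Weight.exists_bound (δ : Weight n) : ∃ B : ℝ, ∀ z, δ.toFun z ≤ B := by
  have h := δ.tendsto_zero
  rw [Metric.cobounded_eq_cocompact] at h
  obtain ⟨K, hK, hK'⟩ := mem_cocompact.1 (h.eventually (gt_mem_nhds one_pos))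
  obtain ⟨B, hB⟩ := hK.bddAbove_image δ.continuous_toFun.continuousOn
  refine ⟨max B 1, fun z => ?_⟩
  by_cases hz : z ∈ K
  · exact (hB ⟨z, hz, rfl⟩).trans (le_max_left _ _)
  · exact (le_of_lt (hK' hz)).trans (le_max_right _ _)

lemma E_mono (δ : Weight n) {N M : ℕ} (h : N ≤ M) : E δ N ≤ E δ M := by
  rintro u ⟨hu, hu'⟩
  refine ⟨hu, ?_⟩
  rw [wnorm_lt_top_iff] at *
  obtain ⟨C, hC⟩ := hu'
  obtain ⟨B, hB⟩ := δ.exists_bound
  obtain ⟨k, rfl⟩ := Nat.exists_eq_add_of_le h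
  refine ⟨B ^ k * C, fun z => ?_⟩
  have h0 := δ.nonneg z
  calc δ.toFun z ^ (N + k) * ‖u z‖ = δ.toFun z ^ k * (δ.toFun z ^ N * ‖u z‖) := by ring
    _ ≤ B ^ k * C := mul_le_mul (pow_le_pow_left₀ h0 (hB z) k) (hC z) (by positivity)
        (pow_nonneg (h0.trans (hB z)) k)

/-- The space `O(δ) = ⋃_N E_N(δ)`. -/
def O (δ : Weight n) : Submodule ℂ (δ.S → ℂ) where
  carrier := {u | ∃ N, u ∈ E δ N}
  add_mem' := by
    rintro u v ⟨N, hu⟩ ⟨M, hv⟩
    exact ⟨max N M, add_mem (E_mono δ (le_max_left _ _) hu) (E_mono δ (le_max_right _ _) hv)⟩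
  zero_mem' := ⟨0, zero_mem _⟩
  smul_mem' := by
    rintro c u ⟨N, hu⟩
    exact ⟨N, Submodule.smul_mem _ c hu⟩

/-- The norm `‖·‖_N` on `O(δ)`; it is finite exactly on `E_N(δ)`. -/
noncomputable def onorm (δ : Weight n) (N : ℕ) (u : O δ) : ℝ≥0∞ := wnorm δ N u.1

/-- The locally convex inductive limit topology of `O(δ)`. -/
@[reducible] noncomputable def topO (δ : Weight n) : TopologicalSpace (O δ) := limTop (onorm δ)

/-- The image `R` of the restriction map `O(δ) → O(δ')` when `δ' ≤ δ`. -/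
def R (δ δ' : Weight n) (h : ∀ z, δ'.toFun z ≤ δ.toFun z) : Set (O δ') :=
  {f | ∃ u ∈ O δ, ∀ z : δ'.S, f.1 z = u ⟨z.1, lt_of_lt_of_le z.2 (h z)⟩}

/-- The set `L` of bornological limits in `O(δ')` of sequences in `R`. -/
def L (δ δ' : Weight n) (h : ∀ z, δ'.toFun z ≤ δ.toFun z) : Set (O δ') :=
  bornLim (onorm δ') (R δ δ' h)

end Pool.Agent.MP_26d9d0_an
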