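import Mathlib.Topology.Sheaves.Presheaf
import Mathlib.Tactic.Monotonicity.Lemmas
import Mathlib.Algebra.Group.ForwardDiff
import Mathlib.Algebra.Order.Ring.Star
import Mathlib.Algebra.Order.Star.Real
import Mathlib.Analysis.Complex.Liouville
import Mathlib.AlgebraicTopology.FundamentalGroupoid.SimplyConnected
import Mathlib.Analysis.Convex.Contractible
import Mathlib.Analysis.Calculus.ContDiff.WithLp
import Mathlib.Analysis.Complex.TaylorSeries
import Mathlib.Combinatorics.SimpleGraph.Basic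
import Mathlib.Tactic.Polynomial.Basic
import Pool.Agent.MP_26d9d0_an.Defs

set_option autoImplicit false

open Filter Topology Finset
open scoped ENNReal

namespace Pool.Agent.MP_26d9d0_an

/-! ### One variable lemmas -/

lemma poly_of_growth {g : ℂ → ℂ} (hg : Differentiable ℂ g) {M : ℕ} {C : ℝ}
    (hC : ∀ z, ‖g z‖ ≤ C * (1 + ‖z‖) ^ M) :
    ∃ P : ℕ → ℂ, ∀ z, g z = ∑ k ∈ range (M + 1), P k * z ^ k := by
  have hC0 : 0 ≤ C := by
    have := hC 0
    simp only [norm_zero, add_zero, one_pow, mul_one] at this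
    exact (norm_nonneg _).trans this
  have hz : ∀ k, M < k → iteratedDeriv k g 0 = 0 := by
    intro k hk
    have hb : ∀ᶠ R : ℝ in atTop, ‖iteratedDeriv k g 0‖ ≤ (k.factorial * C * 2 ^ M) * R⁻¹ := by
      filter_upwards [eventually_ge_atTop 1] with R hR
      have hR0 : 0 < R := by linarith
      have h1 := Complex.norm_iteratedDeriv_le_of_forall_mem_sphere_norm_le (c := 0) (R := R)
        (C := C * (2 * R) ^ M) k hR0 hg.diffContOnCl (fun z hz => by
          have : ‖z‖ = R := by simpa using hz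
          refine (hC z).trans ?_
          rw [this]
          gcongr
          linarith)
      refine h1.trans ?_
      obtain ⟨j, rfl⟩ := Nat.exists_eq_add_of_lt hk
      rw [div_le_iff₀ (by positivity)]
      have h2 : (1 : ℝ) ≤ R ^ j := one_le_pow₀ hR
      have h3 : ((M + j + 1).factorial * C * 2 ^ M) * R⁻¹ * R ^ (M + j + 1) =
          ((M + j + 1).factorial * (C * (2 * R) ^ M)) * R ^ j := by
        field_simp; ring
      rw [h3]
      exact le_mul_of_one_le_right (by positivity) h2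
    have ht : Tendsto (fun R : ℝ => (k.factorial * C * 2 ^ M) * R⁻¹) atTop (𝓝 0) := by
      simpa using tendsto_inv_atTop_zero.const_mul (k.factorial * C * 2 ^ M : ℝ)
    exact norm_le_zero_iff.1 (ge_of_tendsto ht hb)
  refine ⟨fun k => (k.factorial : ℂ)⁻¹ * iteratedDeriv k g 0, fun z => ?_⟩
  have h1 := Complex.hasSum_taylorSeries_of_entire hg 0 z
  have h2 := hasSum_sum_of_ne_finset_zero (L := SummationFilter.unconditional ℕ)
    (f := fun k => (k.factorial : ℂ)⁻¹ • (z - 0) ^ k • iteratedDeriv k g 0) (s := range (M + 1))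
    (fun k hk => by
      rw [hz k (by simp at hk; omega)]; simp)
  rw [h1.unique h2]
  refine sum_congr rfl fun k _ => ?_
  simp only [sub_zero, smul_eq_mul]; ring

/-- The coefficients of the finite difference of order `m`. -/
def coef (m i : ℕ) : ℤ := (-1) ^ (m - i) * m.choose i

lemma diff_zero {g : ℂ → ℂ} (hg : Differentiable ℂ g) {M : ℕ} {C : ℝ}
    (hC : ∀ z, ‖g z‖ ≤ C * (1 + ‖z‖) ^ M) (h : ℂ) :
    ∑ i ∈ range (M + 2), (coef (M + 1) i : ℂ) * g (h * i) = 0 := by
  obtain ⟨P, hP⟩ := poly_of_growth hg hC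
  have h1 := congrFun (fwdDiff_iter_sum_mul_pow_eq_zero (n := M + 1) (fun k => P k * h ^ k)) 0
  rw [fwdDiff_iter_eq_sum_shift] at h1
  simp only [Pi.zero_apply] at h1
  rw [← h1]
  refine sum_congr rfl fun i _ => ?_
  rw [hP, zsmul_eq_mul, coef]
  congr 1
  refine sum_congr rfl fun k _ => ?_
  simp only [zero_add, nsmul_eq_mul, mul_one]; ring

lemma diff_exp (m : ℕ) (h : ℂ) :
    ∑ i ∈ range (m + 1), (coef m i : ℂ) * Complex.exp (h * i) = (Complex.exp h - 1) ^ m := by
  rw [sub_eq_add_neg, add_pow]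
  refine sum_congr rfl fun i _ => ?_
  rw [coef, mul_comm h, Complex.exp_nat_mul]
  push_cast; ring

/-- The polynomial `3 w^2 - 2 w^3`. -/
noncomputable def gmap (w : ℂ) : ℂ := 3 * w ^ 2 - 2 * w ^ 3

lemma gmap_iter_small (k : ℕ) {w : ℂ} (hw : ‖w‖ ≤ 1 / 10) :
    ‖gmap^[k] w‖ ≤ (1 / 2) ^ k * (1 / 10) := by
  induction k with
  | zero => simpa using hw
  | succ k ih =>
    rw [Function.iterate_succ_apply']
    set v := gmap^[k] w
    have h1 : ((1 : ℝ) / 2) ^ k ≤ 1 := pow_le_one₀ (by norm_num) (by norm_num)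
    have h2 : ‖v‖ ≤ 1 / 10 := by nlinarith
    have h3 : ‖gmap v‖ ≤ 3 * ‖v‖ ^ 2 + 2 * ‖v‖ ^ 3 := by
      refine (norm_sub_le _ _).trans ?_
      simp [norm_pow]
    have h4 := norm_nonneg v
    rw [pow_succ]
    nlinarith [mul_nonneg h4 h4, mul_nonneg (mul_nonneg h4 h4) h4]

lemma gmap_iter_symm (k : ℕ) (w : ℂ) : gmap^[k] (1 - w) = 1 - gmap^[k] w := by
  induction k with
  | zero => simp
  | succ k ih =>
    rw [Function.iterate_succ_apply', Function.iterate_succ_apply', ih, gmap, gmap]; ring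

/-! ### Limits in a step stay in the closure -/

variable {n : ℕ}

lemma mem_closure_of_bound (δ : Weight n) (A : Set (O δ)) (f : O δ) (N : ℕ) (hf : f.1 ∈ E δ N)
    (u : ℕ → O δ) (hu : ∀ k, u k ∈ @closure _ (topO δ) A) (C : ℕ → ℝ)
    (hC : Tendsto C atTop (𝓝 0))
    (hb : ∀ k (z : δ.S), δ.toFun z ^ N * ‖(u k).1 z - f.1 z‖ ≤ C k) :
    f ∈ @closure _ (topO δ) A := by
  have hE : ∀ k, (u k).1 ∈ E δ N := by
    intro k
    have h1 : (u k).1 - f.1 ∈ E δ N := by
      obtain ⟨M, hM⟩ := sub_mem (u k).2 f.2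
      exact ⟨hM.1, (wnorm_lt_top_iff _ _ _).2 ⟨C k, hb k⟩⟩
    simpa using add_mem h1 hf
  have hcont : @Continuous _ _ (stepTop (onorm δ N)) (topO δ) Subtype.val :=
    continuous_sInf_rng.2 fun t ht => ht.2.2.2 N
  by_contra hnot
  have hopen : IsOpen[topO δ] (@closure _ (topO δ) A)ᶜ :=
    (@isClosed_closure _ (topO δ) A).isOpen_compl
  have h2 := @Continuous.isOpen_preimage _ _ (stepTop (onorm δ N)) (topO δ) _ hcont _ hopen
  obtain ⟨ε, hε, h3⟩ := h2 ⟨f, hf.2⟩ hnot
  have h4 : Tendsto (fun k => ENNReal.ofReal (C k)) atTop (𝓝 0) := by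
    simpa using ENNReal.tendsto_ofReal hC
  obtain ⟨k, hk⟩ := (h4.eventually (gt_mem_nhds hε)).exists
  refine h3 ⟨u k, (hE k).2⟩ (lt_of_le_of_lt ?_ hk) (hu k)
  exact iSup_le fun z => ENNReal.ofReal_le_ofReal (hb k z)

/-! ### The two weights -/

lemma lip_inv : LipschitzWith 1 (fun z : Cn n => 1 / (1 + ‖z‖)) := by
  refine LipschitzWith.of_dist_le_mul fun z w => ?_
  have hz := norm_nonneg z
  have hw := norm_nonneg w
  have h1 : 1 / (1 + ‖z‖) - 1 / (1 + ‖w‖) = (‖w‖ - ‖z‖) / ((1 + ‖z‖) * (1 + ‖w‖)) := by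
    field_simp; ring
  rw [Real.dist_eq, h1, abs_div, NNReal.coe_one, one_mul, dist_comm, dist_eq_norm,
    abs_of_pos (by positivity : 0 < (1 + ‖z‖) * (1 + ‖w‖))]
  refine (div_le_self (abs_nonneg _) (by nlinarith)).trans (abs_norm_sub_norm_le _ _)

lemma tendsto_inv : Tendsto (fun z : Cn n => 1 / (1 + ‖z‖)) (Bornology.cobounded _) (𝓝 0) := by
  simp only [one_div]
  exact tendsto_inv_atTop_zero.comp (tendsto_atTop_add_const_left _ _ tendsto_norm_cobounded_atTop)

/-- The big weight `1 / (1 + |z|)`. -/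
noncomputable def δ₀ (n : ℕ) : Weight n where
  toFun z := 1 / (1 + ‖z‖)
  continuous_toFun := lip_inv.continuous
  nonneg z := by positivity
  tendsto_zero := tendsto_inv

/-- The function defining the small weight. -/
noncomputable def small (j : Fin n) (z : Cn n) : ℝ :=
  max 0 (min (1 / (1 + ‖z‖))
    (max (1 / 10 - ‖z j‖) (1 / 10 - ‖z - EuclideanSpace.single j 1‖)))

lemma lip_small (j : Fin n) : LipschitzWith 1 (small j) := by
  have h1 : LipschitzWith 1 (fun z : Cn n => 1 / 10 - ‖z j‖) := by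
    refine LipschitzWith.of_dist_le_mul fun z w => ?_
    rw [Real.dist_eq, NNReal.coe_one, one_mul, dist_comm, dist_eq_norm]
    have : 1 / 10 - ‖z j‖ - (1 / 10 - ‖w j‖) = ‖w j‖ - ‖z j‖ := by ring
    rw [this]
    refine (abs_norm_sub_norm_le _ _).trans ?_
    simpa using PiLp.norm_apply_le (w - z) j
  have h2 : LipschitzWith 1 (fun z : Cn n => 1 / 10 - ‖z - EuclideanSpace.single j 1‖) := by
    refine LipschitzWith.of_dist_le_mul fun z w => ?_
    rw [Real.dist_eq, NNReal.coe_one, one_mul, dist_comm, dist_eq_norm]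
    have : 1 / 10 - ‖z - EuclideanSpace.single j 1‖ - (1 / 10 - ‖w - EuclideanSpace.single j 1‖)
        = ‖w - EuclideanSpace.single j 1‖ - ‖z - EuclideanSpace.single j 1‖ := by ring
    rw [this]
    refine (abs_norm_sub_norm_le _ _).trans ?_
    simp
  have h3 := (lip_inv.min (h1.max h2)).const_max 0
  simp only [max_self] at h3
  exact h3

lemma small_le (j : Fin n) (z : Cn n) : small j z ≤ 1 / (1 + ‖z‖) :=
  max_le (by positivity) (min_le_left _ _)

/-- The small weight. -/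
noncomputable def δ₁ (j : Fin n) : Weight n where
  toFun := small j
  continuous_toFun := (lip_small j).continuous
  nonneg _ := le_max_left _ _
  tendsto_zero := squeeze_zero (fun _ => le_max_left _ _) (small_le j) tendsto_inv

lemma δ₁_le (j : Fin n) (z : Cn n) : (δ₁ j).toFun z ≤ (δ₀ n).toFun z := small_le j z

lemma mem_S₀ (z : Cn n) : z ∈ (δ₀ n).S := by
  show 0 < 1 / (1 + ‖z‖)
  positivity

lemma mem_S₁ {j : Fin n} {z : Cn n} :
    z ∈ (δ₁ j).S ↔ ‖z j‖ < 1 / 10 ∨ ‖z - EuclideanSpace.single j 1‖ < 1 / 10 := by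
  show 0 < small j z ↔ _
  have : 0 < 1 / (1 + ‖z‖) := by positivity
  simp only [small, lt_max_iff, lt_min_iff, lt_irrefl, false_or, this, true_and, sub_pos]

lemma near_one {j : Fin n} {z : Cn n} (h : ‖z - EuclideanSpace.single j 1‖ < 1 / 10) :
    ‖1 - z j‖ < 1 / 10 := by
  have := PiLp.norm_apply_le (z - EuclideanSpace.single j (1 : ℂ)) j
  rw [norm_sub_rev]
  refine lt_of_le_of_lt ?_ h
  simpa using this

lemma near_zero {i j : Fin n} (hij : i ≠ j) {z : Cn n}
    (h : ‖z - EuclideanSpace.single j 1‖ < 1 / 10) : ‖z i‖ < 1 / 10 := by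
  have := PiLp.norm_apply_le (z - EuclideanSpace.single j (1 : ℂ)) i
  refine lt_of_le_of_lt ?_ h
  simpa [hij] using this

lemma big_of_near_one {w : ℂ} (h : ‖1 - w‖ < 1 / 10) : 1 / 2 < ‖w‖ := by
  have := norm_sub_norm_le (1 : ℂ) w
  rw [norm_one] at this
  linarith

/-- The indicator of the second piece of `S_{δ'}`. -/
noncomputable def chi (j : Fin n) (z : Cn n) : ℂ := if ‖z j‖ < 1 / 2 then 0 else 1

lemma chi_differentiableOn (j : Fin n) : DifferentiableOn ℂ (chi j) (δ₁ j).S := by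
  intro z hz
  have hc : Continuous (fun w : Cn n => ‖w j‖) := by fun_prop
  refine DifferentiableAt.differentiableWithinAt ?_
  rcases mem_S₁.1 hz with h | h
  · refine (differentiableAt_const (0 : ℂ)).congr_of_eventuallyEq ?_
    filter_upwards [hc.continuousAt.eventually (gt_mem_nhds (by linarith : ‖z j‖ < 1 / 2))]
      with w hw
    simp only [chi, if_pos hw]
  · refine (differentiableAt_const (1 : ℂ)).congr_of_eventuallyEq ?_
    filter_upwards [hc.continuousAt.eventually (lt_mem_nhds (big_of_near_one (near_one h)))]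
      with w hw
    simp only [chi, if_neg (not_lt.2 hw.le)]

lemma norm_chi_le (j : Fin n) (z : Cn n) : ‖chi j z‖ ≤ 1 := by
  unfold chi; split_ifs <;> simp

lemma gmap_approx (j : Fin n) (k : ℕ) {z : Cn n} (hz : z ∈ (δ₁ j).S) :
    ‖gmap^[k] (z j) - chi j z‖ ≤ (1 / 2) ^ k := by
  have h0 : (0 : ℝ) ≤ (1 / 2) ^ k := by positivity
  rcases mem_S₁.1 hz with h | h
  · have := gmap_iter_small k h.le
    rw [chi, if_pos (by linarith), sub_zero]
    linarith
  · have h1 := near_one h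
    have h2 := gmap_iter_small k h1.le
    rw [gmap_iter_symm] at h2
    rw [chi, if_neg (not_lt.2 (big_of_near_one h1).le), norm_sub_rev]
    linarith

/-! ### Entire functions of polynomial growth -/

/-- Entire functions of polynomial growth. -/
def PG (U : Cn n → ℂ) : Prop :=
  Differentiable ℂ U ∧ ∃ (N : ℕ) (C : ℝ), ∀ z, ‖U z‖ ≤ C * (1 + ‖z‖) ^ N

lemma PG.const (c : ℂ) : PG (fun _ : Cn n => c) :=
  ⟨differentiable_const c, 0, ‖c‖, fun _ => by simp⟩

lemma PG.coord (i : Fin n) : PG (fun z : Cn n => z i) :=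
  ⟨by fun_prop, 1, 1, fun z => by
    have := PiLp.norm_apply_le z i
    simp only [pow_one, one_mul]; linarith⟩

lemma PG.mul {U V : Cn n → ℂ} (hU : PG U) (hV : PG V) : PG (fun z => U z * V z) := by
  obtain ⟨hU, N, C, hC⟩ := hU
  obtain ⟨hV, M, D, hD⟩ := hV
  refine ⟨hU.mul hV, N + M, C * D, fun z => ?_⟩
  rw [norm_mul]
  refine (mul_le_mul (hC z) (hD z) (norm_nonneg _) ((norm_nonneg _).trans (hC z))).trans_eq ?_
  ring

lemma PG.add {U V : Cn n → ℂ} (hU : PG U) (hV : PG V) : PG (fun z => U z + V z) := by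
  obtain ⟨hU, N, C, hC⟩ := hU
  obtain ⟨hV, M, D, hD⟩ := hV
  refine ⟨hU.add hV, N + M, |C| + |D|, fun z => ?_⟩
  have h0 : (1 : ℝ) ≤ 1 + ‖z‖ := by simp
  have h1 : ‖U z‖ ≤ |C| * (1 + ‖z‖) ^ (N + M) :=
    (hC z).trans (mul_le_mul (le_abs_self C) (pow_le_pow_right₀ h0 (by omega)) (by positivity)
      (abs_nonneg _))
  have h2 : ‖V z‖ ≤ |D| * (1 + ‖z‖) ^ (N + M) :=
    (hD z).trans (mul_le_mul (le_abs_self D) (pow_le_pow_right₀ h0 (by omega)) (by positivity)
      (abs_nonneg _))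
  refine (norm_add_le _ _).trans ?_
  linarith

lemma PG.pow {U : Cn n → ℂ} (hU : PG U) (k : ℕ) : PG (fun z => U z ^ k) := by
  induction k with
  | zero => simpa using PG.const 1
  | succ k ih => simpa [pow_succ] using ih.mul hU

lemma PG.gmap_iter (j : Fin n) (k : ℕ) : PG (fun z : Cn n => gmap^[k] (z j)) := by
  induction k with
  | zero => exact PG.coord j
  | succ k ih =>
    have := ((PG.const 3).mul (ih.pow 2)).add ((PG.const (-2)).mul (ih.pow 3))
    convert this using 2 with z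
    rw [Function.iterate_succ_apply', gmap]; ring

lemma PG.taylor (i : Fin n) (m : ℕ) :
    PG (fun z : Cn n => ∑ k ∈ range m, z i ^ k / (k.factorial : ℂ)) := by
  induction m with
  | zero => simpa using PG.const 0
  | succ m ih =>
    have := ih.add (((PG.coord i).pow m).mul (PG.const ((m.factorial : ℂ)⁻¹)))
    convert this using 2 with z
    rw [sum_range_succ, div_eq_mul_inv]

lemma weight_bound {U : Cn n → ℂ} {N : ℕ} {C : ℝ} (hC : ∀ z, ‖U z‖ ≤ C * (1 + ‖z‖) ^ N)
    {z : Cn n} {d : ℝ} (hd0 : 0 ≤ d) (hd : d ≤ 1 / (1 + ‖z‖)) : d ^ N * ‖U z‖ ≤ C := by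
  have h0 : 0 < 1 + ‖z‖ := by positivity
  have h1 : d ^ N ≤ (1 / (1 + ‖z‖)) ^ N := pow_le_pow_left₀ hd0 hd N
  refine (mul_le_mul h1 (hC z) (norm_nonneg _) (by positivity)).trans_eq ?_
  rw [one_div, inv_pow]; field_simp

lemma PG.mem_O₀ {U : Cn n → ℂ} (hU : PG U) : (fun z : (δ₀ n).S => U z) ∈ O (δ₀ n) := by
  obtain ⟨hU, N, C, hC⟩ := hU
  exact ⟨N, ⟨U, hU.differentiableOn, fun _ => rfl⟩,
    (wnorm_lt_top_iff _ _ _).2 ⟨C, fun z => weight_bound hC ((δ₀ n).nonneg _) le_rfl⟩⟩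

lemma PG.mem_O₁ (j : Fin n) {U : Cn n → ℂ} (hU : PG U) :
    (fun z : (δ₁ j).S => U z) ∈ O (δ₁ j) := by
  obtain ⟨hU, N, C, hC⟩ := hU
  exact ⟨N, ⟨U, hU.differentiableOn, fun _ => rfl⟩,
    (wnorm_lt_top_iff _ _ _).2 ⟨C, fun z => weight_bound hC ((δ₁ j).nonneg _) (small_le j z)⟩⟩

lemma cut_mem_E (j : Fin n) {U : Cn n → ℂ} (hU : Differentiable ℂ U) {N : ℕ} {C : ℝ}
    (hC : ∀ z, ‖U z‖ ≤ C * (1 + ‖z‖) ^ N) :
    (fun z : (δ₁ j).S => chi j z * U z) ∈ E (δ₁ j) N := by
  refine ⟨⟨fun z => chi j z * U z, (chi_differentiableOn j).mul hU.differentiableOn,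
    fun _ => rfl⟩, (wnorm_lt_top_iff _ _ _).2 ⟨C, fun z => ?_⟩⟩
  refine le_trans ?_ (weight_bound hC ((δ₁ j).nonneg _) (small_le j z))
  rw [norm_mul]
  have h0 : 0 ≤ (δ₁ j).toFun z ^ N := pow_nonneg ((δ₁ j).nonneg _) N
  exact mul_le_mul_of_nonneg_left (mul_le_of_le_one_left (norm_nonneg _) (norm_chi_le j z)) h0

lemma PG.cut_mem_O (j : Fin n) {U : Cn n → ℂ} (hU : PG U) :
    (fun z : (δ₁ j).S => chi j z * U z) ∈ O (δ₁ j) := by
  obtain ⟨hU, N, C, hC⟩ := hU
  exact ⟨N, cut_mem_E j hU hC⟩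

/-- First step: a polynomial times the indicator lies in the closure of `R`. -/
lemma cut_mem_closure (j : Fin n) {U : Cn n → ℂ} (hU : PG U) :
    (⟨_, hU.cut_mem_O j⟩ : O (δ₁ j)) ∈
      @closure _ (topO (δ₁ j)) (R (δ₀ n) (δ₁ j) (δ₁_le j)) := by
  obtain ⟨hU', N, C, hC⟩ := id hU
  refine mem_closure_of_bound _ _ _ N (cut_mem_E j hU' hC)
    (fun k => ⟨_, ((PG.gmap_iter j k).mul hU).mem_O₁ j⟩) (fun k => ?_)
    (fun k => (1 / 2) ^ k * C) ?_ ?_
  · exact @subset_closure _ (topO (δ₁ j)) _ _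
      ⟨_, ((PG.gmap_iter j k).mul hU).mem_O₀, fun _ => rfl⟩
  · simpa using (tendsto_pow_atTop_nhds_zero_of_lt_one (r := (1 / 2 : ℝ)) (by norm_num)
      (by norm_num)).mul_const C
  · intro k z
    have h1 := gmap_approx j k z.2
    have h2 := weight_bound hC ((δ₁ j).nonneg z) (small_le j z)
    have h0 : 0 ≤ (δ₁ j).toFun z ^ N := pow_nonneg ((δ₁ j).nonneg _) N
    show (δ₁ j).toFun z ^ N * ‖gmap^[k] (z.1 j) * U z - chi j z * U z‖ ≤ _
    rw [← sub_mul, norm_mul, mul_left_comm]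
    exact mul_le_mul h1 h2 (by positivity) (by positivity)

lemma chi_ne_zero {i j : Fin n} (hij : i ≠ j) {z : Cn n} (hz : z ∈ (δ₁ j).S)
    (h : chi j z ≠ 0) : ‖z i‖ < 1 / 10 := by
  rcases mem_S₁.1 hz with h' | h'
  · exact absurd (by rw [chi, if_pos (by linarith)]) h
  · exact near_zero hij h'

lemma exp_mem_E {i j : Fin n} (hij : i ≠ j) :
    (fun z : (δ₁ j).S => chi j z * Complex.exp (z.1 i)) ∈ E (δ₁ j) 0 := by
  refine ⟨⟨fun z => chi j z * Complex.exp (z i), (chi_differentiableOn j).mul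
    (Differentiable.differentiableOn (by fun_prop)), fun _ => rfl⟩,
    (wnorm_lt_top_iff _ _ _).2 ⟨Real.exp 1, fun z => ?_⟩⟩
  rw [pow_zero, one_mul]
  by_cases h : chi j z = 0
  · rw [h, zero_mul, norm_zero]; positivity
  · have h1 := chi_ne_zero hij z.2 h
    rw [norm_mul]
    refine (mul_le_of_le_one_left (norm_nonneg _) (norm_chi_le j z)).trans ?_
    refine (Complex.norm_exp_le_exp_norm _).trans (Real.exp_le_exp.2 (by linarith))

/-- The function in the closure of `R` which is not a bornological limit. -/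
noncomputable def target {i j : Fin n} (hij : i ≠ j) : O (δ₁ j) := ⟨_, 0, exp_mem_E hij⟩

/-- Second step. -/
lemma target_mem_closure {i j : Fin n} (hij : i ≠ j) :
    target hij ∈ @closure _ (topO (δ₁ j)) (R (δ₀ n) (δ₁ j) (δ₁_le j)) := by
  refine mem_closure_of_bound _ _ _ 0 (exp_mem_E hij)
    (fun m => ⟨_, (PG.taylor i m).cut_mem_O j⟩) (fun m => cut_mem_closure j (PG.taylor i m))
    (fun m => (1 / 10) ^ m * 2) ?_ ?_
  · simpa using (tendsto_pow_atTop_nhds_zero_of_lt_one (r := (1 / 10 : ℝ)) (by norm_num)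
      (by norm_num)).mul_const 2
  · intro m z
    show (δ₁ j).toFun z ^ 0 * ‖chi j z * (∑ k ∈ range m, z.1 i ^ k / (k.factorial : ℂ)) -
      chi j z * Complex.exp (z.1 i)‖ ≤ _
    rw [pow_zero, one_mul, ← mul_sub]
    by_cases h : chi j z = 0
    · rw [h, zero_mul, norm_zero]; positivity
    · have h1 := chi_ne_zero hij z.2 h
      rw [norm_mul, norm_sub_rev]
      refine (mul_le_of_le_one_left (norm_nonneg _) (norm_chi_le j z)).trans ?_
      have hm : (1 : ℝ) ≤ (m.succ : ℕ) := by exact_mod_cast Nat.succ_pos m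
      have h2 : ‖z.1 i‖ / (m.succ : ℕ) ≤ 1 / 2 :=
        (div_le_self (norm_nonneg _) hm).trans (by linarith)
      refine (Complex.exp_bound' h2).trans ?_
      have h3 : (1 : ℝ) ≤ m.factorial := by exact_mod_cast Nat.succ_le_of_lt m.factorial_pos
      have h4 : ‖z.1 i‖ ^ m ≤ (1 / 10) ^ m := pow_le_pow_left₀ (norm_nonneg _) h1.le m
      have h5 := div_le_self (pow_nonneg (norm_nonneg (z.1 i)) m) h3
      linarith

/-! ### The target is not a bornological limit -/

/-- The point with coordinates `s` at `i`, `w` at `j` and `0` elsewhere. -/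
noncomputable def pt (i j : Fin n) (s w : ℂ) : Cn n :=
  EuclideanSpace.single i s + EuclideanSpace.single j w

lemma pt_i {i j : Fin n} (hij : i ≠ j) (s w : ℂ) : pt i j s w i = s := by simp [pt, hij]

lemma pt_j {i j : Fin n} (hij : i ≠ j) (s w : ℂ) : pt i j s w j = w := by simp [pt, hij.symm]

lemma norm_pt (i j : Fin n) (s w : ℂ) : ‖pt i j s w‖ ≤ ‖s‖ + ‖w‖ := by
  refine (norm_add_le _ _).trans ?_
  simp

lemma single_differentiable (i : Fin n) :
    Differentiable ℂ (fun s : ℂ => (EuclideanSpace.single i s : Cn n)) := by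
  have : (fun s : ℂ => (EuclideanSpace.single i s : Cn n)) =
      fun s : ℂ => s • (EuclideanSpace.single i (1 : ℂ) : Cn n) := by
    ext s k
    simp
  rw [this]
  fun_prop

lemma small_pt {i j : Fin n} (hij : i ≠ j) (s : ℂ) {w : ℂ} (hw : ‖w‖ < 1 / 20) :
    1 / 20 * (1 / (1 + ‖s‖)) ≤ small j (pt i j s w) := by
  refine le_trans (le_min ?_ (le_trans ?_ (le_max_left _ _))) (le_max_right _ _)
  · have h1 := norm_pt i j s w
    have h2 := norm_nonneg s
    rw [one_div_mul_one_div]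
    exact one_div_le_one_div_of_le (by positivity) (by linarith)
  · rw [pt_j hij]
    have h1 : 1 / (1 + ‖s‖) ≤ 1 := by
      rw [div_le_one (by positivity)]; simp
    linarith

lemma restr_diff_zero {i j : Fin n} (hij : i ≠ j) {N : ℕ} {V : Cn n → ℂ}
    (hV : Differentiable ℂ V)
    (hb : ∀ z ∈ (δ₁ j).S, small j z ^ N * ‖V z - chi j z * Complex.exp (z i)‖ ≤ 1) (h : ℂ) :
    ∑ l ∈ range (N + 2), (coef (N + 1) l : ℂ) * V (pt i j (h * l) 1) = 0 := by
  set Φ : ℂ → ℂ := fun w => ∑ l ∈ range (N + 2), (coef (N + 1) l : ℂ) * V (pt i j (h * l) w)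
    with hΦ
  have hΦd : Differentiable ℂ Φ := by
    refine Differentiable.fun_sum fun l _ => (hV.comp ?_).const_mul _
    exact (single_differentiable j).const_add _
  have hzero : Φ =ᶠ[𝓝 0] 0 := by
    filter_upwards [Metric.ball_mem_nhds (0 : ℂ) (by norm_num : (0 : ℝ) < 1 / 20)] with w hw
    have hw' : ‖w‖ < 1 / 20 := by simpa using hw
    refine diff_zero (g := fun s => V (pt i j s w)) (C := 20 ^ N)
      (hV.comp ((single_differentiable i).add_const _)) (fun s => ?_) h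
    have h1 := small_pt hij s hw'
    have h0 : 0 < 1 / 20 * (1 / (1 + ‖s‖)) := by positivity
    have h2 := hb (pt i j s w) (lt_of_lt_of_le h0 h1)
    rw [chi, pt_j hij, if_pos (by linarith), zero_mul, sub_zero] at h2
    have h3 : (1 / 20 * (1 / (1 + ‖s‖))) ^ N * ‖V (pt i j s w)‖ ≤ 1 :=
      le_trans (mul_le_mul_of_nonneg_right (pow_le_pow_left₀ h0.le h1 N) (norm_nonneg _)) h2
    rw [one_div_mul_one_div, one_div, inv_pow, inv_mul_le_iff₀ (by positivity), mul_one,
      mul_pow] at h3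
    exact h3
  have := AnalyticOnNhd.eq_of_eventuallyEq (fun z _ => hΦd.analyticAt z)
    (analyticOnNhd_const (v := (0 : ℂ))) hzero
  exact congrFun this 1

lemma target_not_mem {i j : Fin n} (hij : i ≠ j) :
    target hij ∉ L (δ₀ n) (δ₁ j) (δ₁_le j) := by
  rintro ⟨N, u, hu, hlim⟩
  choose v hvO hv using hu
  have hV : ∀ k, ∃ V : Cn n → ℂ, Differentiable ℂ V ∧ ∀ z : (δ₁ j).S, (u k).1 z = V z := by
    intro k
    obtain ⟨M, ⟨V, hV, hvV⟩, _⟩ := hvO k
    refine ⟨V, fun z => (hV z (mem_S₀ z)).differentiableAt ?_, fun z => by rw [hv, hvV]⟩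
    exact Filter.mem_of_superset univ_mem fun w _ => mem_S₀ w
  choose V hVd hV using hV
  have hpt : ∀ k (z : (δ₁ j).S), ENNReal.ofReal
      (small j z ^ N * ‖V k z - chi j z * Complex.exp (z.1 i)‖) ≤
        wnorm (δ₁ j) N ((u k).1 - (target hij).1) := by
    intro k z
    refine le_trans (le_of_eq ?_) (le_iSup (fun z : (δ₁ j).S => ENNReal.ofReal
      ((δ₁ j).toFun z ^ N * ‖((u k).1 - (target hij).1) z‖)) z)
    rw [Pi.sub_apply, hV]
    rfl
  set t : ℝ := 1 / (20 * (N + 1)) with ht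
  have ht0 : 0 < t := by positivity
  have hev : ∀ᶠ k in atTop,
      ∑ l ∈ range (N + 2), (coef (N + 1) l : ℂ) * V k (pt i j ((t : ℂ) * l) 1) = 0 := by
    filter_upwards [hlim.eventually (gt_mem_nhds one_pos)] with k hk
    refine restr_diff_zero hij (hVd k) (fun z hz => ?_) _
    exact ENNReal.ofReal_le_one.1 ((hpt k ⟨z, hz⟩).trans hk.le)
  have hconv : Tendsto (fun k =>
      ∑ l ∈ range (N + 2), (coef (N + 1) l : ℂ) * V k (pt i j ((t : ℂ) * l) 1)) atTop
      (𝓝 (∑ l ∈ range (N + 2), (coef (N + 1) l : ℂ) * Complex.exp ((t : ℂ) * l))) := by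
    refine tendsto_finsetSum _ fun l hl => Tendsto.const_mul _ ?_
    have hl' : (l : ℝ) ≤ N + 1 := by
      have := mem_range.1 hl
      exact_mod_cast (by omega : l ≤ N + 1)
    have hmem : pt i j ((t : ℂ) * l) 1 ∈ (δ₁ j).S := by
      refine mem_S₁.2 (Or.inr ?_)
      have e : pt i j ((t : ℂ) * l) 1 - EuclideanSpace.single j 1 =
          EuclideanSpace.single i ((t : ℂ) * l) := by simp [pt]
      rw [e, PiLp.norm_single, norm_mul, Complex.norm_real, Complex.norm_natCast,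
        Real.norm_of_nonneg ht0.le]
      have : t * (N + 1) = 1 / 20 := by rw [ht]; field_simp
      nlinarith
    have hpos : 0 < small j (pt i j ((t : ℂ) * l) 1) ^ N := pow_pos hmem N
    have h1 : Tendsto (fun k => ENNReal.ofReal (small j (pt i j ((t : ℂ) * l) 1) ^ N *
        ‖V k (pt i j ((t : ℂ) * l) 1) - chi j (pt i j ((t : ℂ) * l) 1) *
          Complex.exp (pt i j ((t : ℂ) * l) 1 i)‖)) atTop (𝓝 0) :=
      tendsto_of_tendsto_of_tendsto_of_le_of_le tendsto_const_nhds hlim (fun _ => zero_le)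
        (fun k => hpt k ⟨_, hmem⟩)
    rw [chi, pt_j hij, pt_i hij, if_neg (by norm_num), one_mul] at h1
    have h2 := (ENNReal.tendsto_toReal ENNReal.zero_ne_top).comp h1
    have h3 : Tendsto (fun k => small j (pt i j ((t : ℂ) * l) 1) ^ N *
        ‖V k (pt i j ((t : ℂ) * l) 1) - Complex.exp ((t : ℂ) * l)‖) atTop (𝓝 0) := by
      refine h2.congr fun k => ?_
      exact ENNReal.toReal_ofReal (by positivity)
    have h4 := h3.const_mul (small j (pt i j ((t : ℂ) * l) 1) ^ N)⁻¹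
    simp only [← mul_assoc, inv_mul_cancel₀ hpos.ne', one_mul, mul_zero] at h4
    exact tendsto_iff_norm_sub_tendsto_zero.2 h4
  have h0 := tendsto_nhds_unique hconv (tendsto_const_nhds.congr' (hev.mono fun k hk => hk.symm))
  rw [diff_exp] at h0
  have h1 : Complex.exp t = 1 := sub_eq_zero.1 (pow_eq_zero_iff (by omega) |>.1 h0)
  rw [← Complex.ofReal_exp, ← Complex.ofReal_one, Complex.ofReal_inj, Real.exp_eq_one_iff] at h1
  exact ht0.ne' h1

end Pool.Agent.MP_26d9d0_an
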